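import Pool.Agent.H474.MS.Stm3

/-!
# Project MS (helper474), K5: characteristic function and fourth moment of a limit law
-/

set_option autoImplicit false
set_option maxHeartbeats 4000000

open MeasureTheory Filter Topology Set

namespace Pool.Agent.H351.MS.K5

open Pool.Agent.H474.MS

theorem ii {V : ℝ} (F : ℝ → ℝ) (hm : Measurable F) (hb : ∃ B, ∀ u ∈ Icc 0 V, |F u| ≤ B)
    (hV : 0 ≤ V) : IntervalIntegrable F volume 0 V := by
  obtain ⟨B, hB⟩ := hb
  rw [intervalIntegrable_iff_integrableOn_Ioc_of_le hV]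
  refine Measure.integrableOn_of_bounded (M := B) (by simp) hm.aestronglyMeasurable ?_
  filter_upwards [ae_restrict_mem measurableSet_Ioc] with x hx
  exact hB x ⟨hx.1.le, hx.2⟩

theorem close (f g ψ : ℝ → ℝ) (hf : Measurable f)
    (hfb : ∀ V : ℝ, ∃ B : ℝ, ∀ u ∈ Icc 0 V, |f u| ≤ B) (hg : Continuous g) (hψ : Continuous ψ)
    (L : ℝ) (hL : 0 ≤ L) (hLip : ∀ x y, |ψ x - ψ y| ≤ L * |x - y|) (η V : ℝ) (hη : 0 < η)
    (hV : 0 < V) (h : mean (fun u => (f u - g u) ^ 2) V ≤ η ^ 2) :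
    |mean (fun u => ψ (f u)) V - mean (fun u => ψ (g u)) V| ≤ L * η := by
  obtain ⟨Bg, hBg⟩ := (isCompact_Icc (a := (0:ℝ)) (b := V)).exists_bound_of_continuousOn
    hg.continuousOn
  obtain ⟨Bf, hBf⟩ := hfb V
  have i1 : IntervalIntegrable (fun u => ψ (f u)) volume 0 V := by
    refine ii _ (hψ.measurable.comp hf) ⟨|ψ 0| + L * Bf, fun u hu => ?_⟩ hV.le
    have h1 := hLip (f u) 0
    rw [sub_zero] at h1
    have h2 : |ψ (f u)| ≤ |ψ (f u) - ψ 0| + |ψ 0| := by
      have := abs_add_le (ψ (f u) - ψ 0) (ψ 0)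
      rwa [sub_add_cancel] at this
    have h3 := mul_le_mul_of_nonneg_left (hBf u hu) hL
    linarith
  have i2 : IntervalIntegrable (fun u => ψ (g u)) volume 0 V :=
    (hψ.comp hg).intervalIntegrable _ _
  have i3 : IntervalIntegrable (fun u => (f u - g u) ^ 2) volume 0 V := by
    refine ii _ ((hf.sub hg.measurable).pow_const 2) ⟨(Bf + Bg) ^ 2, fun u hu => ?_⟩ hV.le
    have h1 : |f u - g u| ≤ Bf + Bg := by
      have h2 := abs_sub (f u) (g u)
      have h3 := hBf u hu
      have h4 := hBg u hu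
      rw [Real.norm_eq_abs] at h4
      linarith
    rw [abs_pow]
    exact pow_le_pow_left₀ (abs_nonneg _) h1 2
  have i4 : IntervalIntegrable (fun u => L * (η / 2 + (f u - g u) ^ 2 / (2 * η))) volume 0 V :=
    ((intervalIntegrable_const (c := η / 2)).add (i3.div_const (2 * η))).const_mul L
  unfold mean at *
  rw [← sub_div, ← intervalIntegral.integral_sub i1 i2, abs_div, abs_of_pos hV, div_le_iff₀ hV]
  rw [div_le_iff₀ hV] at h
  have h1 : |∫ u in (0:ℝ)..V, (ψ (f u) - ψ (g u))| ≤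
      ∫ u in (0:ℝ)..V, L * (η / 2 + (f u - g u) ^ 2 / (2 * η)) := by
    rw [← Real.norm_eq_abs]
    refine intervalIntegral.norm_integral_le_of_norm_le hV.le ?_ i4
    filter_upwards with u hu
    rw [Real.norm_eq_abs]
    refine (hLip _ _).trans (mul_le_mul_of_nonneg_left ?_ hL)
    have h5 : 0 ≤ (|f u - g u| - η) ^ 2 := sq_nonneg _
    have h6 : |f u - g u| ^ 2 = (f u - g u) ^ 2 := sq_abs _
    have h7 : η / 2 + (f u - g u) ^ 2 / (2 * η) = (η ^ 2 + (f u - g u) ^ 2) / (2 * η) := by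
      field_simp
    rw [h7, le_div_iff₀ (by positivity), ← h6]
    nlinarith
  have h2 : ∫ u in (0:ℝ)..V, L * (η / 2 + (f u - g u) ^ 2 / (2 * η)) =
      L * (V * (η / 2) + (∫ u in (0:ℝ)..V, (f u - g u) ^ 2) / (2 * η)) := by
    rw [intervalIntegral.integral_const_mul, intervalIntegral.integral_add
      intervalIntegrable_const (i3.div_const (2 * η)), intervalIntegral.integral_const,
      intervalIntegral.integral_div]
    simp
  rw [h2] at h1
  refine h1.trans ?_
  have h3 : (∫ u in (0:ℝ)..V, (f u - g u) ^ 2) / (2 * η) ≤ η ^ 2 * V / (2 * η) :=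
    div_le_div_of_nonneg_right h (by positivity)
  have h4 : η ^ 2 * V / (2 * η) = η * V / 2 := by field_simp
  rw [h4] at h3
  rw [mul_assoc]
  refine mul_le_mul_of_nonneg_left ?_ hL
  linarith

theorem ts_cont {n : ℕ} (γ a θ : Fin n → ℝ) : Continuous (TS γ a θ) := by
  unfold TS
  fun_prop

theorem cos_lip (t x y : ℝ) : |Real.cos (t * x) - Real.cos (t * y)| ≤ |t| * |x - y| := by
  have h := Real.abs_cos_sub_cos_le (t * x) (t * y)
  rwa [← mul_sub, abs_mul] at h

theorem sin_lip (t x y : ℝ) : |Real.sin (t * x) - Real.sin (t * y)| ≤ |t| * |x - y| := by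
  have h := Real.abs_sin_sub_sin_le (t * x) (t * y)
  rwa [← mul_sub, abs_mul] at h

theorem le_of_eta {A B : ℝ} (F : ℝ → ℝ) (hF : Continuous F) (h0 : F 0 = B)
    (h : ∀ η : ℝ, 0 < η → A ≤ F η) : A ≤ B := by
  have h1 : Tendsto F (𝓝[>] 0) (𝓝 B) := by
    rw [← h0]
    exact (hF.tendsto 0).mono_left nhdsWithin_le_nhds
  refine ge_of_tendsto h1 ?_
  filter_upwards [self_mem_nhdsWithin] with η hη
  exact h η hη

theorem exp_lip (x y : ℝ) (hx : x ≤ 0) (hy : y ≤ 0) : |Real.exp x - Real.exp y| ≤ |x - y| := by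
  wlog hxy : y ≤ x generalizing x y
  · rw [abs_sub_comm, abs_sub_comm x y]
    exact this y x hy hx (le_of_not_ge hxy)
  rw [abs_of_nonneg (by linarith [Real.exp_le_exp.mpr hxy]), abs_of_nonneg (by linarith)]
  have h1 : Real.exp y = Real.exp x * Real.exp (y - x) := by rw [← Real.exp_add]; congr 1; ring
  have h2 := Real.add_one_le_exp (y - x)
  have h3 : Real.exp x ≤ 1 := Real.exp_le_one_iff.mpr hx
  have h4 := Real.exp_pos x
  rw [h1]
  nlinarith

theorem t_K5 (k2 : Pool.Agent.H474.MS.S_K2) (k3 : Pool.Agent.H474.MS.S_K3)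
    (k4 : Pool.Agent.H474.MS.S_K4) : Pool.Agent.H474.MS.S_K5 := by
  obtain ⟨C, hC0, hC⟩ := k4
  refine ⟨C, hC0, ?_⟩
  intro f v m hgood μ hμ
  have hv0 : 0 ≤ v := by
    refine le_of_eta (A := 0) (fun η => v + η) (by fun_prop) (by simp) fun η hη => ?_
    obtain ⟨n, γ, a, θ, -, -, h1, -⟩ := hgood.approx η hη
    have h2 : 0 ≤ ∑ i, a i ^ 2 := Finset.sum_nonneg fun i _ => sq_nonneg _
    have h3 := (abs_le.mp h1).2
    linarith
  have hm0 := hgood.m0
  refine ⟨fun t => ?_, ?_⟩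
  · -- characteristic function
    set Ac : ℝ := ∫ x, Real.cos (t * x) ∂(μ : Measure ℝ) with hAc
    set As : ℝ := ∫ x, Real.sin (t * x) ∂(μ : Measure ℝ) with hAs
    have hc := hμ (fun x => Real.cos (t * x)) (by fun_prop) ⟨1, fun x => Real.abs_cos_le_one _⟩
    have hs := hμ (fun x => Real.sin (t * x)) (by fun_prop) ⟨1, fun x => Real.abs_sin_le_one _⟩
    have key : ∀ η : ℝ, 0 < η →
        |Ac - Real.exp (-(v * t ^ 2 / 2))| ≤ |t| * η + C * t ^ 4 * (m * ((v + η ^ 2) / 2)) +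
          t ^ 2 * η ^ 2 / 2 ∧ |As| ≤ |t| * η := by
      intro η hη
      obtain ⟨n, γ, a, θ, hLI, ham, hav, hap⟩ := hgood.approx (η ^ 2) (by positivity)
      obtain ⟨kc, ks⟩ := k2 n γ a θ hLI t
      have e1 : |Ac - ∏ i, J0 (2 * a i * t)| ≤ |t| * η := by
        refine le_of_tendsto (hc.sub kc).abs ?_
        filter_upwards [hap, eventually_gt_atTop 0] with V hV hV0
        exact close f (TS γ a θ) (fun x => Real.cos (t * x)) hgood.meas hgood.bdd (ts_cont _ _ _)
          (by fun_prop) |t| (abs_nonneg t) (cos_lip t) η V hη hV0 hV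
      have e2 : |As - 0| ≤ |t| * η := by
        refine le_of_tendsto (hs.sub ks).abs ?_
        filter_upwards [hap, eventually_gt_atTop 0] with V hV hV0
        exact close f (TS γ a θ) (fun x => Real.sin (t * x)) hgood.meas hgood.bdd (ts_cont _ _ _)
          (by fun_prop) |t| (abs_nonneg t) (sin_lip t) η V hη hV0 hV
      rw [sub_zero] at e2
      refine ⟨?_, e2⟩
      have hsum0 : 0 ≤ ∑ i, a i ^ 2 := Finset.sum_nonneg fun i _ => sq_nonneg _
      have hav1 := abs_le.mp hav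
      have hsumle : ∑ i, a i ^ 2 ≤ (v + η ^ 2) / 2 := by linarith [hav1.2]
      have h4 : ∑ i, a i ^ 4 ≤ m * ((v + η ^ 2) / 2) := by
        calc ∑ i, a i ^ 4 ≤ ∑ i, m * a i ^ 2 := Finset.sum_le_sum fun i _ => by
              have : a i ^ 4 = a i ^ 2 * a i ^ 2 := by ring
              rw [this]
              exact mul_le_mul_of_nonneg_right (ham i) (sq_nonneg _)
          _ = m * ∑ i, a i ^ 2 := by rw [Finset.mul_sum]
          _ ≤ _ := mul_le_mul_of_nonneg_left hsumle hm0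
      have e3 := hC n a t
      have e4 : |Real.exp (-(t ^ 2 * ∑ i, a i ^ 2)) - Real.exp (-(v * t ^ 2 / 2))| ≤
          t ^ 2 * η ^ 2 / 2 := by
        refine (exp_lip _ _ (by have := mul_nonneg (sq_nonneg t) hsum0; linarith)
          (by have := mul_nonneg hv0 (sq_nonneg t); linarith)).trans ?_
        have e5 : -(t ^ 2 * ∑ i, a i ^ 2) - -(v * t ^ 2 / 2) =
            -(t ^ 2 / 2 * (2 * ∑ i, a i ^ 2 - v)) := by ring
        rw [e5, abs_neg, abs_mul, abs_of_nonneg (by positivity : (0:ℝ) ≤ t ^ 2 / 2)]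
        have := mul_le_mul_of_nonneg_left hav (by positivity : (0:ℝ) ≤ t ^ 2 / 2)
        linarith
      have e6 : C * t ^ 4 * ∑ i, a i ^ 4 ≤ C * t ^ 4 * (m * ((v + η ^ 2) / 2)) :=
        mul_le_mul_of_nonneg_left h4 (by positivity)
      have e7 := abs_sub_le Ac (∏ i, J0 (2 * a i * t)) (Real.exp (-(v * t ^ 2 / 2)))
      have e8 := abs_sub_le (∏ i, J0 (2 * a i * t)) (Real.exp (-(t ^ 2 * ∑ i, a i ^ 2)))
        (Real.exp (-(v * t ^ 2 / 2)))
      linarith
    have hAs0 : As = 0 := by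
      have : |As| ≤ 0 := le_of_eta (fun η => |t| * η) (by fun_prop) (by simp)
        fun η hη => (key η hη).2
      exact abs_nonpos_iff.mp this
    have hAc1 : |Ac - Real.exp (-(v * t ^ 2 / 2))| ≤ C * t ^ 4 * (m * (v / 2)) := by
      refine le_of_eta (fun η => |t| * η + C * t ^ 4 * (m * ((v + η ^ 2) / 2)) +
          t ^ 2 * η ^ 2 / 2) (by fun_prop) (by simp) fun η hη => (key η hη).1
    have hch : charFun (μ : Measure ℝ) t = ((Ac : ℝ) : ℂ) := by
      rw [charFun_apply_real]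
      have ic : Integrable (fun x : ℝ => Real.cos (t * x)) (μ : Measure ℝ) :=
        Integrable.of_bound (by fun_prop) 1 (Eventually.of_forall fun x => Real.abs_cos_le_one _)
      have is : Integrable (fun x : ℝ => Real.sin (t * x)) (μ : Measure ℝ) :=
        Integrable.of_bound (by fun_prop) 1 (Eventually.of_forall fun x => Real.abs_sin_le_one _)
      have e : ∀ x : ℝ, Complex.exp ((t : ℂ) * x * Complex.I) =
          ((Real.cos (t * x) : ℝ) : ℂ) + ((Real.sin (t * x) : ℝ) : ℂ) * Complex.I := by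
        intro x
        rw [← Complex.ofReal_mul, Complex.exp_mul_I, Complex.ofReal_cos, Complex.ofReal_sin]
      simp_rw [e]
      rw [integral_add ic.ofReal (is.ofReal.mul_const _), integral_mul_const]
      have e9 : ∫ x, ((Real.cos (t * x) : ℝ) : ℂ) ∂(μ : Measure ℝ) = ((Ac : ℝ) : ℂ) := integral_ofReal
      have e10 : ∫ x, ((Real.sin (t * x) : ℝ) : ℂ) ∂(μ : Measure ℝ) = ((As : ℝ) : ℂ) := integral_ofReal
      rw [e9, e10, hAs0]
      simp
    rw [hch, ← Complex.ofReal_exp, ← Complex.ofReal_sub, Complex.norm_real, Real.norm_eq_abs]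
    refine hAc1.trans ?_
    have h5 : 0 ≤ C * t ^ 4 * m * v := by positivity
    linarith
  · -- fourth moment
    have hk : ∀ k : ℕ, ∫ x, (min |x| (k : ℝ)) ^ 4 ∂(μ : Measure ℝ) ≤ 3 * v ^ 2 := by
      intro k
      have hk0 : (0:ℝ) ≤ k := Nat.cast_nonneg k
      have hmin0 : ∀ x : ℝ, 0 ≤ min |x| (k : ℝ) := fun x => le_min (abs_nonneg x) hk0
      have hbd : ∀ x : ℝ, |(min |x| (k : ℝ)) ^ 4| ≤ (k : ℝ) ^ 4 := fun x => by
        rw [abs_of_nonneg (pow_nonneg (hmin0 x) 4)]
        exact pow_le_pow_left₀ (hmin0 x) (min_le_right _ _) 4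
      have hlim := hμ (fun x => (min |x| (k : ℝ)) ^ 4) (by fun_prop) ⟨_, hbd⟩
      have hlip : ∀ x y : ℝ, |(min |x| (k : ℝ)) ^ 4 - (min |y| (k : ℝ)) ^ 4| ≤
          4 * (k : ℝ) ^ 3 * |x - y| := by
        intro x y
        set p := min |x| (k : ℝ) with hp
        set r := min |y| (k : ℝ) with hr
        have hp0 : 0 ≤ p := hmin0 x
        have hr0 : 0 ≤ r := hmin0 y
        have hpk : p ≤ k := min_le_right _ _
        have hrk : r ≤ k := min_le_right _ _
        have hpr : |p - r| ≤ |x - y| := by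
          have h1 := abs_min_sub_min_le_max |x| (k : ℝ) |y| (k : ℝ)
          rw [sub_self, abs_zero, max_eq_left (abs_nonneg _)] at h1
          exact h1.trans (abs_abs_sub_abs_le x y)
        have h1 : p ^ 4 - r ^ 4 = (p - r) * (p ^ 3 + p ^ 2 * r + p * r ^ 2 + r ^ 3) := by ring
        have h2 : 0 ≤ p ^ 3 + p ^ 2 * r + p * r ^ 2 + r ^ 3 := by positivity
        have h3 : p ^ 3 + p ^ 2 * r + p * r ^ 2 + r ^ 3 ≤ 4 * (k : ℝ) ^ 3 := by
          have a1 : p ^ 3 ≤ (k : ℝ) ^ 3 := pow_le_pow_left₀ hp0 hpk 3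
          have a2 : r ^ 3 ≤ (k : ℝ) ^ 3 := pow_le_pow_left₀ hr0 hrk 3
          have a3 : p ^ 2 * r ≤ (k : ℝ) ^ 2 * k :=
            mul_le_mul (pow_le_pow_left₀ hp0 hpk 2) hrk hr0 (by positivity)
          have a4 : p * r ^ 2 ≤ (k : ℝ) * (k : ℝ) ^ 2 :=
            mul_le_mul hpk (pow_le_pow_left₀ hr0 hrk 2) (by positivity) hk0
          nlinarith
        rw [h1, abs_mul, abs_of_nonneg h2, mul_comm]
        exact mul_le_mul h3 hpr (abs_nonneg _) (by positivity)
      refine le_of_eta (fun η => 4 * (k : ℝ) ^ 3 * η + 3 * (v + η ^ 2) ^ 2) (by fun_prop)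
        (by simp) fun η hη => ?_
      obtain ⟨n, γ, a, θ, hLI, ham, hav, hap⟩ := hgood.approx (η ^ 2) (by positivity)
      obtain ⟨L, hL, hLt⟩ := k3 n γ a θ hLI
      have hsum0 : 0 ≤ ∑ i, a i ^ 2 := Finset.sum_nonneg fun i _ => sq_nonneg _
      have hav1 := abs_le.mp hav
      have hL2 : L ≤ 3 * (v + η ^ 2) ^ 2 := by
        refine hL.trans ?_
        have : (2 * ∑ i, a i ^ 2) ^ 2 ≤ (v + η ^ 2) ^ 2 :=
          pow_le_pow_left₀ (by positivity) (by linarith [hav1.2]) 2
        linarith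
      have h1 : ∫ x, (min |x| (k : ℝ)) ^ 4 ∂(μ : Measure ℝ) ≤ 4 * (k : ℝ) ^ 3 * η + L := by
        refine le_of_tendsto_of_tendsto hlim (hLt.const_add (4 * (k : ℝ) ^ 3 * η)) ?_
        filter_upwards [hap, eventually_gt_atTop 0] with V hV hV0
        have c1 := close f (TS γ a θ) (fun x => (min |x| (k : ℝ)) ^ 4) hgood.meas hgood.bdd
          (ts_cont _ _ _) (by fun_prop) (4 * (k : ℝ) ^ 3) (by positivity) hlip η V hη hV0 hV
        have c2 := (abs_le.mp c1).2
        have c3 : mean (fun u => (min |TS γ a θ u| (k : ℝ)) ^ 4) V ≤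
            mean (fun u => TS γ a θ u ^ 4) V := by
          unfold mean
          refine div_le_div_of_nonneg_right ?_ hV0.le
          refine intervalIntegral.integral_mono_on hV0.le
            (Continuous.intervalIntegrable (by have := ts_cont γ a θ; fun_prop) _ _)
            (Continuous.intervalIntegrable (by have := ts_cont γ a θ; fun_prop) _ _) fun u _ => ?_
          have d1 : TS γ a θ u ^ 4 = |TS γ a θ u| ^ 4 := by
            rw [← abs_pow, abs_of_nonneg (by positivity)]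
          rw [d1]
          exact pow_le_pow_left₀ (hmin0 _) (min_le_left _ _) 4
        linarith
      linarith
    have hint : ∀ k : ℕ, ∫⁻ x, ENNReal.ofReal ((min |x| (k : ℝ)) ^ 4) ∂(μ : Measure ℝ) ≤
        ENNReal.ofReal (3 * v ^ 2) := by
      intro k
      have hk0 : (0:ℝ) ≤ k := Nat.cast_nonneg k
      have hmin0 : ∀ x : ℝ, 0 ≤ min |x| (k : ℝ) := fun x => le_min (abs_nonneg x) hk0
      have hi : Integrable (fun x : ℝ => (min |x| (k : ℝ)) ^ 4) (μ : Measure ℝ) := by
        refine Integrable.of_bound (by fun_prop) ((k : ℝ) ^ 4) (Eventually.of_forall fun x => ?_)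
        rw [Real.norm_eq_abs, abs_of_nonneg (pow_nonneg (hmin0 x) 4)]
        exact pow_le_pow_left₀ (hmin0 x) (min_le_right _ _) 4
      rw [← ofReal_integral_eq_lintegral_ofReal hi
        (Eventually.of_forall fun x => pow_nonneg (hmin0 x) 4)]
      exact ENNReal.ofReal_le_ofReal (hk k)
    have hconv : Tendsto (fun k : ℕ => ∫⁻ x, ENNReal.ofReal ((min |x| (k : ℝ)) ^ 4)
        ∂(μ : Measure ℝ)) atTop (𝓝 (∫⁻ x, ENNReal.ofReal (x ^ 4) ∂(μ : Measure ℝ))) := by
      refine lintegral_tendsto_of_tendsto_of_monotone (fun k => by fun_prop)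
        (Eventually.of_forall fun x => ?_) (Eventually.of_forall fun x => ?_)
      · intro k l hkl
        refine ENNReal.ofReal_le_ofReal ?_
        refine pow_le_pow_left₀ (le_min (abs_nonneg x) (Nat.cast_nonneg k)) ?_ 4
        exact min_le_min_left _ (by exact_mod_cast hkl)
      · refine tendsto_const_nhds.congr' ?_
        filter_upwards [eventually_ge_atTop ⌈|x|⌉₊] with k hk1
        have d1 : |x| ≤ k := (Nat.le_ceil _).trans (by exact_mod_cast hk1)
        rw [min_eq_left d1, ← abs_pow, abs_of_nonneg (by positivity)]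
    exact le_of_tendsto' hconv hint

end Pool.Agent.H351.MS.K5
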